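import Pool.Agent.Y223.G.Stm2
import Pool.Agent.Y223.G.WBase

/-!
Project G: the operator `T ^ l (τ - 1)` on the graded algebra of a chart.
-/

set_option autoImplicit false

namespace Pool.Agent.Y891.G

open Pool.Agent.Y223.G

section

variable {k O K : Type} [CommRing k] [CommRing O] [Field K] [Algebra O K] [Algebra k K]
  {τ : K ≃ₐ[k] K} {p l : ℕ} {𝔓 : Ideal O} {C : Subalgebra O K}

/-- the binomial expansion of `τ ^ n = (1 + δ) ^ n` -/
theorem iter_binom (τ : K ≃ₐ[k] K) (n : ℕ) (c : K) :
    τ^[n] c = ∑ m ∈ Finset.range (n + 1), (n.choose m : K) * (df τ)^[m] c := by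
  obtain ⟨D, hD⟩ : ∃ D : Module.End k K, D = (τ.toLinearMap : K →ₗ[k] K) - 1 := ⟨_, rfl⟩
  have h1 : ∀ x, D x = df τ x := fun x => by
    rw [hD]; rfl
  have h2 : ∀ (m : ℕ) (x : K), (D ^ m) x = (df τ)^[m] x := by
    intro m x
    rw [Module.End.pow_apply]
    have : (D : K → K) = df τ := funext h1
    rw [this]
  have h3 : ∀ (m : ℕ) (x : K), ((D + 1) ^ m) x = τ^[m] x := by
    intro m x
    rw [Module.End.pow_apply]
    have : ((D + 1 : Module.End k K) : K → K) = τ := by
      funext y
      rw [hD, sub_add_cancel]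
      rfl
    rw [this]
  rw [← h3, (Commute.one_right D).add_pow, LinearMap.sum_apply]
  refine Finset.sum_congr rfl fun m _ => ?_
  rw [one_pow, mul_one, ← h2, Module.End.mul_apply]
  have : ((n.choose m : ℕ) : Module.End k K) c = (n.choose m : K) * c := by
    rw [Module.End.natCast_apply, nsmul_eq_mul]
  rw [this, ← nsmul_eq_mul, map_nsmul, nsmul_eq_mul]

theorem natCast_hm (R : Subalgebra k (LP K)) {d : ℤ} {x : K} (n : ℕ) (h : hm d x ∈ R) :
    hm d ((n : K) * x) ∈ R := by
  induction n with
  | zero =>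
    rw [Nat.cast_zero, zero_mul, hm_zero]
    exact R.zero_mem
  | succ n ih =>
    rw [Nat.cast_succ, add_mul, one_mul, hm_add]
    exact R.add_mem ih h

/-- the operator on a generator of top order -/
theorem top_gen [IsDomain O] [IsDedekindDomain O] [Algebra k O] [IsScalarTower k O K]
    {t : O ≃ₐ[k] O} (W : WSet k O K p τ t 𝔓 l) {c : K} (hc : c ∈ C) :
    hm (l + wt l (p - 1)) ((df τ)^[p] c) ∈ RR k τ p 𝔓 l C := by
  obtain ⟨R, hR⟩ : ∃ R : Subalgebra k (LP K), R = RR k τ p 𝔓 l C := ⟨_, rfl⟩
  have hp := W.pp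
  have hp2 := hp.two_le
  have h1 := iter_binom τ p c
  rw [W.ord c, Finset.sum_range_succ, Nat.choose_self, Nat.cast_one, one_mul] at h1
  obtain ⟨q, hq⟩ : ∃ q, p = q + 1 := ⟨p - 1, by omega⟩
  have h2 : (df τ)^[p] c = -∑ m ∈ Finset.range q, (p.choose (m + 1) : K) * (df τ)^[m + 1] c := by
    have h3 : ∑ m ∈ Finset.range p, (p.choose m : K) * (df τ)^[m] c =
        ∑ m ∈ Finset.range q, (p.choose (m + 1) : K) * (df τ)^[m + 1] c + c := by
      rw [hq, Finset.sum_range_succ']
      simp
    rw [h3] at h1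
    linear_combination -h1
  rw [h2, hm_neg, ← hR]
  refine R.neg_mem ?_
  have h4 : hm (l + wt l (p - 1)) (∑ m ∈ Finset.range q, (p.choose (m + 1) : K) *
      (df τ)^[m + 1] c) = ∑ m ∈ Finset.range q, hm (l + wt l (p - 1))
        ((p.choose (m + 1) : K) * (df τ)^[m + 1] c) := by
    generalize Finset.range q = s
    classical
    induction s using Finset.induction_on with
    | empty => rw [Finset.sum_empty, Finset.sum_empty, hm_zero]
    | insert i s hi ih => rw [Finset.sum_insert hi, Finset.sum_insert hi, hm_add, ih]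
  rw [h4]
  refine R.sum_mem fun m hm' => ?_
  rw [Finset.mem_range] at hm'
  have hmp : m + 1 < p := by omega
  have hgen : hm (wt l (m + 1)) ((df τ)^[m + 1] c) ∈ R := by
    rw [hR]; exact RR_del hmp hc
  rcases Nat.eq_zero_or_pos l with hl | hl
  · -- `l = 0`
    have e : ((l : ℤ) + wt l (p - 1)) = wt l (m + 1) := by
      subst hl
      have e1 : wt 0 (p - 1) = 1 := by
        unfold wt
        rw [if_pos rfl]
        omega
      have e2 : wt 0 (m + 1) = 1 := by
        unfold wt
        rw [if_pos rfl]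
        omega
      rw [e1, e2]
      simp
    rw [e]
    exact natCast_hm R _ hgen
  · obtain ⟨n, hn⟩ := hp.dvd_choose_self (k := m + 1) (by omega) hmp
    have h5 : (p : O) ∈ 𝔓 ^ ((p - (m + 1)) * l) := by
      refine Ideal.pow_le_pow_right ?_ W.pl
      exact Nat.mul_le_mul_right l (by omega)
    have h6 : hm ((((p - (m + 1)) * l : ℕ) : ℤ)) (algebraMap O K (p : O)) ∈ R := by
      rw [hR]; exact RR_epow hp.pos _ h5
    have h8 := natCast_hm (K := K) R n (x := algebraMap O K (p : O) * (df τ)^[m + 1] c)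
      (d := (((p - (m + 1)) * l : ℕ) : ℤ) + wt l (m + 1)) (by
        have := R.mul_mem h6 hgen
        rwa [hm_mul] at this)
    rw [map_natCast] at h8
    have e3 : ((p.choose (m + 1) : ℕ) : K) * (df τ)^[m + 1] c =
        (n : K) * ((p : K) * (df τ)^[m + 1] c) := by
      rw [hn]
      push_cast
      ring
    have e4 : ((l : ℤ) + wt l (p - 1)) = (((p - (m + 1)) * l : ℕ) : ℤ) + wt l (m + 1) := by
      have e5 : wt l (p - 1) = (p - 1) * l := by
        unfold wt
        rw [if_neg hl.ne']
      have e6 : wt l (m + 1) = (m + 1) * l := by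
        unfold wt
        rw [if_neg hl.ne']
      rw [e5, e6]
      obtain ⟨a, ha⟩ : ∃ a, p = a + (m + 1) := ⟨p - (m + 1), by omega⟩
      have e7 : p - (m + 1) = a := by omega
      have e8 : p - 1 = a + m := by omega
      rw [e7, e8]
      push_cast
      ring
    rw [e3, e4]
    exact h8

end

theorem t_RSTAB : S_RSTAB := by
  intro k O K _ _ _ _ _ _ _ _ _ p τ t 𝔓 l W C hC
  obtain ⟨R, hR⟩ : ∃ R : Subalgebra k (LP K), R = RR k τ p 𝔓 l C := ⟨_, rfl⟩
  have hp := W.pp
  have hp2 := hp.two_le
  have hs : (hm (-1) 1 : LP K) ∈ R := by rw [hR]; exact RR_s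
  have hsl : (hm (-l) 1 : LP K) ∈ R := by
    have h := R.pow_mem hs l
    rw [hm_pow, one_pow] at h
    have e : (l : ℤ) * -1 = -l := by ring
    rwa [e] at h
  have h1 : ∀ f ∈ R, hm l 1 * (tl τ f - f) ∈ R → tl τ f ∈ R := by
    intro f hf hf'
    have e : tl τ f = f + hm (-l) 1 * (hm l 1 * (tl τ f - f)) := by
      rw [← mul_assoc, hm_mul, neg_add_cancel, one_mul, hm_one, one_mul]
      ring
    rw [e]
    exact R.add_mem hf (R.mul_mem hsl hf')
  have key : ∀ f ∈ R, hm l 1 * (tl τ f - f) ∈ R := by
    intro f hf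
    rw [hR] at hf
    unfold RR at hf
    induction hf using Algebra.adjoin_induction with
    | mem x hx =>
      rcases hx with (hx | ⟨e, he, rfl⟩) | ⟨a, c, hc, ha, rfl⟩
      · rw [hx, tl_hm, map_one, sub_self, mul_zero]
        exact R.zero_mem
      · rw [tl_hm, W.com, ← hm_sub, ← map_sub, hm_mul, one_mul]
        have h2 : hm ((l + 1 : ℕ) : ℤ) (algebraMap O K (t e - e)) ∈ R := by
          rw [hR]; exact RR_epow hp.pos _ (W.dv e)
        rwa [Nat.cast_add, Nat.cast_one] at h2
      · rw [tl_hm, ← hm_sub, hm_mul, one_mul]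
        have e1 : τ ((df τ)^[a] c) - (df τ)^[a] c = (df τ)^[a + 1] c := by
          rw [Function.iterate_succ_apply']
          rfl
        rw [e1]
        rcases Nat.lt_or_ge (a + 1) p with h | h
        · have hgen : hm (wt l (a + 1)) ((df τ)^[a + 1] c) ∈ R := by
            rw [hR]; exact RR_del h hc
          rw [hR] at hgen ⊢
          refine RR_low' hgen ?_
          unfold wt
          split_ifs with hl
          · subst hl
            push_cast
            omega
          · push_cast
            have : ((a : ℤ) + 1) * l = l + a * l := by ring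
            omega
        · have e2 : a + 1 = p := by omega
          have e3 : a = p - 1 := by omega
          rw [e2, hR, e3]
          exact top_gen W hc
    | algebraMap r =>
      rw [AlgEquiv.commutes, sub_self, mul_zero]
      exact R.zero_mem
    | add x y hx hy h2 h3 =>
      have e : hm l 1 * (tl τ (x + y) - (x + y)) =
          hm l 1 * (tl τ x - x) + hm l 1 * (tl τ y - y) := by
        rw [map_add]; ring
      rw [e]
      exact R.add_mem h2 h3
    | mul x y hx hy h2 h3 =>
      have hx' : x ∈ R := by rw [hR]; exact hx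
      have hy' : y ∈ R := by rw [hR]; exact hy
      have e : hm l 1 * (tl τ (x * y) - (x * y)) =
          tl τ x * (hm l 1 * (tl τ y - y)) + (hm l 1 * (tl τ x - x)) * y := by
        rw [map_mul]; ring
      rw [e]
      exact R.add_mem (R.mul_mem (h1 x hx' h2) h3) (R.mul_mem h2 hy')
  intro f hf
  rw [← hR] at hf ⊢
  exact ⟨h1 f hf (key f hf), key f hf⟩

end Pool.Agent.Y891.G
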